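import Pool.Agent.W477.ER.Stm

/-!
# Project ER, part LB1: binomial value of be at L_r
-/

set_option autoImplicit false

namespace Pool.Agent.W479.ER

open Finset Pool.Agent.W477.ER

theorem al_zero' (q a e : ℕ) : al q a e 0 = 0 := by
  simp [al]

theorem al_one' (hAl : AlBasic) (q e : ℕ) : al q 0 e 1 = 1 := by
  have h1 := hAl.2.2.2.2.2.1 q 0 e 1 (Nat.zero_le _) le_rfl
  have h2 := hAl.2.2.1 q 0 e 0
  rw [al_zero', zero_add] at h2
  omega

theorem al_pow' (hAl : AlBasic) (hAP : AlPow) (q : ℕ) (hq : 2 ≤ q) :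
    ∀ e, e < q → ∀ n, al q 0 e (q ^ n) = (n + e).choose e := by
  intro e
  induction e with
  | zero =>
    intro _ n
    rw [hAl.2.2.2.2.2.2 q 0 (q ^ n) hq (Nat.one_le_pow _ _ (by omega))]
    simp
  | succ e ih =>
    intro he n
    induction n with
    | zero =>
      rw [pow_zero, al_one' hAl]
      simp
    | succ n ihn =>
      rw [hAP q 0 (e + 1) n hq (by omega), ihn]
      rw [hAl.2.2.2.2.1 q (0 + 1) (e + 1) (q ^ (n + 1)) (by omega)]
      rw [show e + 1 - (0 + 1) = e by omega, ih (by omega) (n + 1)]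
      rw [show n + 1 + (e + 1) = (n + 1 + e) + 1 by ring, Nat.choose_succ_succ,
        show n + (e + 1) = n + 1 + e by ring, add_comm]

/-- the affine part -/
def xs (q : ℕ) (s : ℕ → ℕ) (e : ℕ) : ℕ :=
  ∑ a ∈ Ico 1 (e + 1), (if s a < a then 0 else q ^ (s a - a))

theorem xs_succ (q : ℕ) (s : ℕ → ℕ) (e : ℕ) :
    xs q s (e + 1) = xs q s e + (if s (e + 1) < e + 1 then 0 else q ^ (s (e + 1) - (e + 1))) := by
  unfold xs
  rw [Finset.sum_Ico_succ_top (by omega)]

theorem incr (s : ℕ → ℕ) (e : ℕ) (hs : ∀ a b, 1 ≤ a → a < b → b ≤ e → s a < s b) :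
    ∀ a, 1 ≤ a → a ≤ e → s a + (e - a) ≤ s e := by
  intro a ha hae
  obtain ⟨k, rfl⟩ := Nat.exists_eq_add_of_le hae
  clear hae
  induction k with
  | zero => simp
  | succ k ih =>
    have h1 := ih (fun a b h1 h2 h3 => hs a b h1 h2 (by omega))
    have h2 := hs (a + k) (a + (k + 1)) (by omega) (by omega) le_rfl
    omega

theorem xs_le (q : ℕ) (hq : 2 ≤ q) (s : ℕ → ℕ) (e m : ℕ)
    (h : ∀ a, 1 ≤ a → a ≤ e → s a ≤ a + m) :
    xs q s e ≤ e * q ^ m := by
  unfold xs
  calc _ ≤ ∑ a ∈ Ico 1 (e + 1), q ^ m := by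
        apply Finset.sum_le_sum
        intro a ha
        rw [Finset.mem_Ico] at ha
        split_ifs with h1
        · exact Nat.zero_le _
        · apply Nat.pow_le_pow_right (by omega)
          have := h a ha.1 (by omega)
          omega
    _ = e * q ^ m := by simp

theorem xs_zero (q : ℕ) (s : ℕ → ℕ) (e : ℕ)
    (h : ∀ a, 1 ≤ a → a ≤ e → s a < a) :
    xs q s e = 0 ∧ ∑ a ∈ Icc 1 e, (s a).choose a = 0 := by
  constructor
  · unfold xs
    apply Finset.sum_eq_zero
    intro a ha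
    rw [Finset.mem_Ico] at ha
    rw [if_pos (h a ha.1 (by omega))]
  · apply Finset.sum_eq_zero
    intro a ha
    rw [Finset.mem_Icc] at ha
    exact Nat.choose_eq_zero_of_lt (h a ha.1 ha.2)

theorem affine (hAl : AlBasic) (hAP : AlPow) (hAS : AlShift) (q : ℕ) (hq : 2 ≤ q) (s : ℕ → ℕ) :
    ∀ e, e < q → (∀ a b, 1 ≤ a → a < b → b ≤ e → s a < s b) →
    al q 0 e (xs q s e) = ∑ a ∈ Icc 1 e, (s a).choose a ∧
      al q 0 e (xs q s e + 1) = ∑ a ∈ Icc 1 e, (s a).choose a + 1 := by
  intro e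
  induction e with
  | zero =>
    intro _ _
    have h1 : xs q s 0 = 0 := by simp [xs]
    rw [h1, al_zero', al_one' hAl]
    simp
  | succ e ih =>
    intro he hs
    have ih' := ih (by omega) (fun a b h1 h2 h3 => hs a b h1 h2 (by omega))
    have hin := incr s (e + 1) hs
    by_cases hlt : s (e + 1) < e + 1
    · obtain ⟨h1, h2⟩ := xs_zero q s (e + 1) (by
        intro a ha hae
        have := hin a ha hae
        omega)
      rw [h1, h2, al_zero', al_one' hAl]
      simp
    · obtain ⟨m, hm⟩ := Nat.exists_eq_add_of_le (not_lt.1 hlt)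
      have hxs : xs q s (e + 1) = q ^ m + xs q s e := by
        rw [xs_succ, if_neg hlt, hm, Nat.add_sub_cancel_left, add_comm]
      have hle : xs q s e ≤ e * q ^ m := by
        apply xs_le q hq
        intro a ha hae
        have := hin a ha (by omega)
        omega
      have hle2 : xs q s e + 1 ≤ (q - 1) * q ^ m := by
        have h1 : 1 ≤ q ^ m := Nat.one_le_pow _ _ (by omega)
        have h2 : (e + 1) * q ^ m ≤ (q - 1) * q ^ m := Nat.mul_le_mul_right _ (by omega)
        have h3 : (e + 1) * q ^ m = e * q ^ m + q ^ m := by ring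
        omega
      have hch : al q 0 (e + 1) (q ^ m) = (s (e + 1)).choose (e + 1) := by
        rw [al_pow' hAl hAP q hq (e + 1) he m, hm, add_comm]
      have hsum : ∑ a ∈ Icc 1 (e + 1), (s a).choose a =
          ∑ a ∈ Icc 1 e, (s a).choose a + (s (e + 1)).choose (e + 1) := by
        rw [Finset.sum_Icc_succ_top (by omega)]
      have hred : ∀ x, al q (0 + 1) (e + 1) x = al q 0 e x := by
        intro x
        rw [hAl.2.2.2.2.1 q (0 + 1) (e + 1) x (by omega)]
        congr 1
      constructor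
      · rw [hxs, hAS q 0 (e + 1) m _ hq (by omega), hch, hred, ih'.1, hsum, add_comm]
      · rw [hxs, add_assoc, hAS q 0 (e + 1) m _ hq hle2, hch, hred, ih'.2, hsum]
        ring

theorem lb1_of : AlBasic → AlPow → AlShift → PpBasic → BeBasic → BeBlock → BePP → LB1 := by
  intro hAl hAP hAS hPP hBe hBB hBP q d s hq hd1 hdq hs
  obtain ⟨e, rfl⟩ : ∃ e, d = e + 1 := ⟨d - 1, by omega⟩
  have hin := incr s (e + 1) hs
  have hL : Lval q (e + 1) s = pp q (s (e + 1) + 1 - (e + 1)) + xs q s e := rfl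
  by_cases hlt : s (e + 1) < e + 1
  · obtain ⟨h1, h2⟩ := xs_zero q s (e + 1) (by
      intro a ha hae
      have := hin a ha hae
      omega)
    have h3 : xs q s e = 0 := by
      rw [xs_succ] at h1
      omega
    have h4 : s (e + 1) + 1 - (e + 1) = 0 := by omega
    rw [hL, h2, h3, h4, hPP.1]
    constructor
    · rw [hBe.2.2.2.2.2.2.2.1]
    · exact hBe.2.2.2.2.2.1 q 0 (e + 1) _ (Nat.zero_le _) (by omega)
  · obtain ⟨m, hm⟩ := Nat.exists_eq_add_of_le (not_lt.1 hlt)
    have h4 : s (e + 1) + 1 - (e + 1) = m + 1 := by omega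
    have hle : xs q s e ≤ e * q ^ m := by
      apply xs_le q hq
      intro a ha hae
      have := hin a ha (by omega)
      omega
    have hle2 : xs q s e + 1 ≤ q ^ (m + 1) := by
      have h1 : 1 ≤ q ^ m := Nat.one_le_pow _ _ (by omega)
      have h2 : (e + 1) * q ^ m ≤ q * q ^ m := Nat.mul_le_mul_right _ (by omega)
      have h3 : (e + 1) * q ^ m = e * q ^ m + q ^ m := by ring
      have h5 : q ^ (m + 1) = q * q ^ m := by ring
      omega
    have hch : be q 0 (e + 1) (pp q (m + 1)) = (s (e + 1)).choose (e + 1) := by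
      rw [hBP q 0 (e + 1) m hq (by omega), al_pow' hAl hAP q hq (e + 1) hdq m, hm, add_comm]
    have hsum : ∑ a ∈ Icc 1 (e + 1), (s a).choose a =
        ∑ a ∈ Icc 1 e, (s a).choose a + (s (e + 1)).choose (e + 1) := by
      rw [Finset.sum_Icc_succ_top (by omega)]
    have hred : ∀ x, al q (0 + 1) (e + 1) x = al q 0 e x := by
      intro x
      rw [hAl.2.2.2.2.1 q (0 + 1) (e + 1) x (by omega)]
      congr 1
    obtain ⟨a1, a2⟩ := affine hAl hAP hAS q hq s e (by omega)
      (fun a b h1 h2 h3 => hs a b h1 h2 (by omega))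
    rw [hL, h4]
    constructor
    · rw [hBB q 0 (e + 1) m _ hq (by omega), hch, hred, a1, hsum, add_comm]
    · rw [add_assoc, hBB q 0 (e + 1) m _ hq hle2, hch, hred, a2, hsum]
      omega

end Pool.Agent.W479.ER
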