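import Pool.Agent.W477.ER.Stm

/-!
# Project ER, part N2: a good point in dimension at least l + 4, v at least 2
-/

set_option autoImplicit false

namespace Pool.Agent.W479.ER

open Finset Pool.Agent.W477.ER

theorem n2_of : PpBasic → C1 → Q3 → IneqC → DC → N2 := by
  classical
  intro hPP hC1 hQ3 hI hDC q d l v r M α _ S X hq hM hcard hv hP
  have hP' := hP
  obtain ⟨hq2, hd, hv1, hvd, hr1, hr2, hN⟩ := hP'
  obtain ⟨dc1, dc2, dc3, dc4⟩ := hDC q M α S X hq2 hcard
  rcases (show q = 3 ∨ 4 ≤ q by omega) with rfl | hq4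
  · have hd2 : d = 2 := by omega
    have hv2 : v = 2 := by omega
    subst hd2 hv2
    have hr : r = 1 := by
      simp at hr2
      omega
    subst hr
    have hne : X.Nonempty := by
      rw [← Finset.card_pos]
      omega
    obtain ⟨P, hPX⟩ := hne
    refine ⟨P, ?_⟩
    have hi : ind X P = 1 := by
      unfold ind
      rw [if_pos hPX]
    unfold LinSp.Good
    have h1 := dc1 P
    rw [hi] at h1 ⊢
    exact hQ3 l X.card _ hN h1
  · by_contra hno
    push Not at hno
    have hbad : ∀ P, P ∉ X → (X.card : ℤ) - pp q (l + 2) + 1 ≤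
        ((∑ i ∈ Ico 1 q, 2 * i * S.nn X P i : ℕ) : ℤ) := by
      intro P hPX
      have hi : ind X P = 0 := by
        unfold ind
        rw [if_neg hPX]
      have h1 := dc1 P
      have h2 := hno P
      unfold LinSp.Good at h2
      rw [hi] at h1 h2
      have h3 : ¬ (pp q (l + 2) + S.nn X P 1 ≤ S.nn X P 0) := by
        intro h3
        exact h2 (hC1 q d l v r X.card 0 (S.nn X P) hP h1 h3)
      have h4 := h1.2.2
      rw [Finset.range_eq_Ico, Finset.sum_eq_sum_Ico_succ_bot (by omega)] at h4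
      rw [zero_add] at h4
      have h5 : ∑ i ∈ Ico 1 q, S.nn X P i + S.nn X P 1 ≤
          ∑ i ∈ Ico 1 q, 2 * i * S.nn X P i := by
        rw [Finset.sum_eq_sum_Ico_succ_bot (show 1 < q by omega)]
        rw [Finset.sum_eq_sum_Ico_succ_bot (show 1 < q by omega)]
        have h6 : ∑ i ∈ Ico (1 + 1) q, S.nn X P i ≤ ∑ i ∈ Ico (1 + 1) q, 2 * i * S.nn X P i := by
          apply Finset.sum_le_sum
          intro i hi
          rw [Finset.mem_Ico] at hi
          exact Nat.le_mul_of_pos_left _ (by omega)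
        omega
      have h7 : X.card + 1 ≤ pp q (l + 2) + ∑ i ∈ Ico 1 q, 2 * i * S.nn X P i := by omega
      have h8 : ((X.card + 1 : ℕ) : ℤ) ≤
          ((pp q (l + 2) + ∑ i ∈ Ico 1 q, 2 * i * S.nn X P i : ℕ) : ℤ) := by
        exact_mod_cast h7
      push_cast at h8 ⊢
      linarith
    have hsum : ((pp q M : ℤ) - X.card) * ((X.card : ℤ) - pp q (l + 2) + 1) ≤
        ((q : ℤ) - 1) * (X.card * ((X.card : ℤ) - 1)) := by
      have h1 : ∑ P ∈ Xᶜ, ((X.card : ℤ) - pp q (l + 2) + 1) ≤
          ∑ P ∈ Xᶜ, ((∑ i ∈ Ico 1 q, 2 * i * S.nn X P i : ℕ) : ℤ) := by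
        apply Finset.sum_le_sum
        intro P hPX
        exact hbad P (Finset.mem_compl.1 hPX)
      rw [Finset.sum_const, Finset.card_compl, hcard] at h1
      have h2 : ∑ P ∈ Xᶜ, ((∑ i ∈ Ico 1 q, 2 * i * S.nn X P i : ℕ) : ℤ) ≤
          ∑ P, ((∑ i ∈ Ico 1 q, 2 * i * S.nn X P i : ℕ) : ℤ) := by
        apply Finset.sum_le_univ_sum_of_nonneg
        intro P
        positivity
      have h3 : ∑ P, ((∑ i ∈ Ico 1 q, 2 * i * S.nn X P i : ℕ) : ℤ) =
          (((q - 1) * (X.card * (X.card - 1)) : ℕ) : ℤ) := by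
        rw [← dc4]
        push_cast
        rfl
      have h4 : X.card ≤ pp q M := by
        rw [← hcard]
        exact Finset.card_le_univ X
      rw [nsmul_eq_mul, Nat.cast_sub h4] at h1
      rw [h3] at h2
      have h5 : (((q - 1) * (X.card * (X.card - 1)) : ℕ) : ℤ) =
          ((q : ℤ) - 1) * (X.card * ((X.card : ℤ) - 1)) := by
        rw [Nat.cast_mul, Nat.cast_mul, Nat.cast_sub (by omega), Nat.cast_sub (by omega)]
        simp
      rw [h5] at h2
      exact h1.trans h2
    have hr3 : r ≤ (q - 1 - v) * q ^ l + 1 := by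
      have : (d - v) * q ^ l ≤ (q - 1 - v) * q ^ l := Nat.mul_le_mul_right _ (by omega)
      omega
    have hlt := hI q l v r M (X.card : ℤ) (pp q M : ℤ) (pp q (M - 1) : ℤ) (pp q (l + 2) : ℤ) hq4 hv
      (by omega) hM hr1 hr3 rfl rfl rfl (by
        rw [hN]
        push_cast
        ring)
    have hpM : (pp q M : ℤ) = q * pp q (M - 1) + 1 := by
      have h1 := hPP.2.2.2.1 q (M - 1)
      rw [Nat.sub_add_cancel (by omega)] at h1
      rw [h1]
      push_cast
      ring
    have hkey : q * (X.card : ℤ) * (pp q (M - 1) - X.card + 1) =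
        (X.card : ℤ) * (pp q M - X.card) - ((q : ℤ) - 1) * (X.card * ((X.card : ℤ) - 1)) := by
      rw [hpM]
      ring
    rw [hkey] at hlt
    nlinarith

end Pool.Agent.W479.ER
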