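import Pool.Agent.W477.ER.Stm

/-!
# Project ER, part SAT: lemmas Small, TotGe, SatD, SatOut, SatIn
-/

set_option autoImplicit false

namespace Pool.Agent.W479.ER

open Finset Pool.Agent.W477.ER

theorem totGe : BeBasic → TotGe := by
  intro hB q d w n hq hd hw
  obtain ⟨b1, b2, b3, b4, b5, b6, b7, b8, b9⟩ := hB
  unfold tot
  split_ifs with h
  · exact le_rfl
  · have h1 : ∑ i ∈ range q, be q i d (n i) =
        ∑ i ∈ range (d + 1), be q i d (n i) + ∑ i ∈ Ico (d + 1) q, be q i d (n i) := by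
      rw [Finset.sum_range_add_sum_Ico _ (by omega)]
    have h2 : ∑ i ∈ Ico (d + 1) q, be q i d (n i) = 0 := by
      apply Finset.sum_eq_zero
      intro i hi
      rw [Finset.mem_Ico] at hi
      exact b4 q i d (n i) (by omega)
    rw [h1, h2, Finset.sum_range_succ]
    have := b7 q d (n d)
    omega

theorem small_of : BeBasic → Small := by
  intro hB q d N n hq hd hN hN2 hR
  obtain ⟨b1, b2, b3, b4, b5, b6, b7, b8, b9⟩ := hB
  obtain ⟨hanti, -, hsum⟩ := hR
  have hle : ∀ i ∈ range q, n i ≤ q := by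
    intro i hi
    have := Finset.single_le_sum (f := n) (fun _ _ => Nat.zero_le _) hi
    omega
  have hbN : be q 0 d N = min N (d + 1) := by
    rw [b9 q 0 d N hq hN2]; rfl
  have htot : tot q d 1 n = 1 + ∑ i ∈ range d, min (n i) (d + 1 - i) := by
    unfold tot
    rw [if_neg (by norm_num)]
    congr 1
    apply Finset.sum_congr rfl
    intro i hi
    have hi' := Finset.mem_range.1 hi
    exact b9 q i d (n i) hq (by
      have := hle i (Finset.mem_range.2 (by omega))
      omega)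
  rw [hbN, htot]
  by_cases hA : ∀ i < d, 1 ≤ n i
  · have : d ≤ ∑ i ∈ range d, min (n i) (d + 1 - i) := by
      calc d = ∑ i ∈ range d, 1 := by simp
        _ ≤ _ := by
          apply Finset.sum_le_sum
          intro i hi
          have hi' := Finset.mem_range.1 hi
          have := hA i hi'
          omega
    omega
  · push Not at hA
    obtain ⟨a, ha, ha0⟩ := hA
    have ha0 : n a = 0 := by omega
    have hz : ∀ j, a ≤ j → n j = 0 := by
      intro j hj
      have := hanti hj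
      omega
    have hs : ∑ i ∈ range q, n i = ∑ i ∈ range d, n i := by
      rw [← Finset.sum_range_add_sum_Ico n (show d ≤ q by omega)]
      rw [Finset.sum_eq_zero (s := Ico d q)]
      · simp
      · intro j hj
        rw [Finset.mem_Ico] at hj
        exact hz j (by omega)
    by_cases hC : ∀ i < d, n i ≤ d + 1 - i
    · have : ∑ i ∈ range d, min (n i) (d + 1 - i) = ∑ i ∈ range d, n i := by
        apply Finset.sum_congr rfl
        intro i hi
        exact min_eq_left (hC i (Finset.mem_range.1 hi))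
      rw [this, ← hs]
      omega
    · push Not at hC
      obtain ⟨i, hi, hni⟩ := hC
      have h1 : ∑ j ∈ range (i + 1), min (n j) (d + 1 - j) ≤
          ∑ j ∈ range d, min (n j) (d + 1 - j) := by
        apply Finset.sum_le_sum_of_subset
        intro j hj
        rw [Finset.mem_range] at *
        omega
      have h2 : i ≤ ∑ j ∈ range i, min (n j) (d + 1 - j) := by
        calc i = ∑ j ∈ range i, 1 := by simp
          _ ≤ _ := by
            apply Finset.sum_le_sum
            intro j hj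
            have hj' := Finset.mem_range.1 hj
            have := hanti (le_of_lt hj')
            omega
      rw [Finset.sum_range_succ] at h1
      omega

/-- the first `v` rows are saturated -/
theorem rows_sat (hBS : BeSat) (q d l v : ℕ) (n : ℕ → ℕ) (hq : 2 ≤ q) (hd : d < q) (hv : v ≤ d)
    (h : ∀ i, i < v → (d - i) * q ^ l + pp q l + 1 ≤ n i) :
    ∑ i ∈ range v, al q i d (q ^ (l + 1)) ≤ ∑ i ∈ range v, be q i d (n i) := by
  apply Finset.sum_le_sum
  intro i hi
  have hi' := Finset.mem_range.1 hi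
  exact hBS q i d l (n i) hq (by omega) (by omega) (h i hi')

theorem rows_big (hTG : TotGe) (hU : U) (q d l v r N w : ℕ) (n : ℕ → ℕ) (hP : Par q d l v r N)
    (hR : Rows q N w n) (h0 : n 0 ≤ pp q (l + 2)) (hbad : tot q d w n < be q 0 d N) :
    ∀ i, i < v → (d - i) * q ^ l + pp q l + 1 ≤ n i := by
  intro i hi
  by_contra hcon
  have h1 := hU q d l v r N w n hP hR (Or.inr h0) ⟨i, hi, by omega⟩
  have h2 := hTG q d w n hP.1 hP.2.1 hR.2.1
  omega

theorem satD_of : AlBasic → BeSat → BeCan → TotGe → U → SatD := by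
  intro hAl hBS hBC hTG hU q d l r N n hP hR h0
  by_contra hbad
  push Not at hbad
  have hbig := rows_big hTG hU q d l d r N 1 n hP hR h0 hbad
  obtain ⟨hq, hd, hv1, hvd, hr1, hr2, hN⟩ := hP
  have hsat := rows_sat hBS q d l d n hq hd le_rfl hbig
  have hr : r = 1 := by
    simp at hr2
    omega
  have hc := (hBC q d l d r hq hd hv1 le_rfl hr2).2
  rw [← hN] at hc
  have h1 : al q d d r = 1 := hAl.2.2.2.2.2.2 q d r hq (by omega)
  have ht : tot q d 1 n = 1 + ∑ i ∈ range d, be q i d (n i) := by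
    unfold tot
    rw [if_neg (by norm_num)]
  omega

/-- the rows from `v` on -/
theorem rest (hAl : AlBasic) (hLAY : LAY) (hBX : BeX1) (hXX : XxBasic) (hBS : BeSat)
    (hBC : BeCan) (hTG : TotGe) (hU : U) (q d l v r N w : ℕ) (n : ℕ → ℕ) (hP : Par q d l v r N)
    (hR : Rows q N w n) (h0 : n 0 ≤ pp q (l + 2)) (hbad : tot q d w n < be q 0 d N) :
    ∑ i ∈ Ico v q, xx q (n i) + 1 ≤ r := by
  have hbig := rows_big hTG hU q d l v r N w n hP hR h0 hbad
  have hTG' := hTG q d w n hP.1 hP.2.1 hR.2.1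
  obtain ⟨hq, hd, hv1, hvd, hr1, hr2, hN⟩ := hP
  obtain ⟨hanti, hw, hsum⟩ := hR
  have hsat := rows_sat hBS q d l v n hq hd hvd hbig
  have hc := (hBC q d l v r hq hd hv1 hvd hr2).2
  rw [← hN] at hc
  have hsplit : ∑ i ∈ range q, be q i d (n i) =
      ∑ i ∈ range v, be q i d (n i) + ∑ i ∈ Ico v q, be q i d (n i) := by
    rw [Finset.sum_range_add_sum_Ico _ (by omega)]
  have h1 : ∑ i ∈ Ico v q, be q i d (n i) < al q v d r := by omega
  have h2 : ∑ i ∈ Ico v q, al q i d (xx q (n i)) ≤ ∑ i ∈ Ico v q, be q i d (n i) := by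
    apply Finset.sum_le_sum
    intro i hi
    exact hBX q i d (n i) hq (by omega)
  have h3 : al q v d (∑ i ∈ range (q - v), xx q (n (v + i))) ≤
      ∑ i ∈ range (q - v), al q (v + i) d (xx q (n (v + i))) := by
    apply hLAY q (q - v) v d (fun i => xx q (n (v + i))) hq (by omega)
    intro i j hij
    exact hXX.1 q _ _ hq (hanti (by omega))
  rw [Finset.sum_Ico_eq_sum_range] at h2
  rw [Finset.sum_Ico_eq_sum_range]
  rw [Finset.sum_Ico_eq_sum_range] at h1
  rw [Finset.sum_Ico_eq_sum_range] at h2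
  by_contra hcon
  have h4 : al q v d r ≤ al q v d (∑ i ∈ range (q - v), xx q (n (v + i))) :=
    hAl.1 q v d _ _ (by omega)
  omega

theorem pp_facts (hPP : PpBasic) (q l v r N : ℕ) (hv1 : 1 ≤ v)
    (hN : N = v * q ^ (l + 1) + pp q (l + 1) + r) :
    N + (v - 1) * pp q (l + 1) = v * pp q (l + 2) + r := by
  obtain ⟨v, rfl⟩ : ∃ u, v = u + 1 := ⟨v - 1, by omega⟩
  rw [hN, hPP.2.2.1 q (l + 1)]
  simp only [Nat.add_sub_cancel]
  ring

theorem sum_defect (q l v : ℕ) (n : ℕ → ℕ) (hanti : Antitone n) (h0 : n 0 ≤ pp q (l + 2)) :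
    ∑ i ∈ range v, (pp q (l + 2) - n i) + ∑ i ∈ range v, n i = v * pp q (l + 2) := by
  rw [← Finset.sum_add_distrib]
  rw [Finset.sum_congr rfl (g := fun _ => pp q (l + 2))]
  · simp
  · intro i _
    have := hanti (Nat.zero_le i)
    omega

theorem satOut_of : AlBasic → LAY → BeX1 → XxBasic → BeSat → PpBasic → BeCan → TotGe → U →
    SatOut := by
  intro hAl hLAY hBX hXX hBS hPP hBC hTG hU q d l v r N n hP hR h0 hbad
  have hX := rest hAl hLAY hBX hXX hBS hBC hTG hU q d l v r N 0 n hP hR h0 hbad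
  obtain ⟨hq, hd, hv1, hvd, hr1, hr2, hN⟩ := hP
  obtain ⟨hanti, hw, hsum⟩ := hR
  have hsplit : ∑ i ∈ range q, n i = ∑ i ∈ range v, n i + ∑ i ∈ Ico v q, n i := by
    rw [Finset.sum_range_add_sum_Ico _ (by omega)]
  have hv : ∀ f : ℕ → ℕ, ∑ i ∈ Ico v q, f i = f v + ∑ i ∈ Ico (v + 1) q, f i := by
    intro f
    exact Finset.sum_eq_sum_Ico_succ_bot (by omega) f
  have hpf := pp_facts hPP q l v r N hv1 hN
  have hdf := sum_defect q l v n hanti h0
  rw [hv] at hX hsplit
  -- the row v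
  have hrq : r ≤ q ^ (l + 1) := by
    have h1 : (d - v) * q ^ l + 1 ≤ (q - 1) * q ^ l + 1 * q ^ l := by
      have h2 : (d - v) * q ^ l ≤ (q - 1) * q ^ l := Nat.mul_le_mul_right _ (by omega)
      have h3 : 1 ≤ q ^ l := Nat.one_le_pow _ _ (by omega)
      omega
    have h4 : (q - 1) * q ^ l + 1 * q ^ l = q ^ (l + 1) := by
      rw [← add_mul, Nat.sub_add_cancel (by omega), pow_succ, mul_comm]
    omega
  have hnv : n v ≤ xx q (n v) + pp q l := by
    apply hXX.2.2.2.2.2.2.2.1 q (n v) l hq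
    by_contra hcon
    have := hXX.2.2.2.2.2.2.2.2.1 q (n v) l hq (by omega)
    omega
  have hni : q * ∑ i ∈ Ico (v + 1) q, n i ≤
      q * ∑ i ∈ Ico (v + 1) q, xx q (n i) + ∑ i ∈ Ico (v + 1) q, n i := by
    rw [Finset.mul_sum, Finset.mul_sum, ← Finset.sum_add_distrib]
    apply Finset.sum_le_sum
    intro i _
    have h1 := hXX.2.2.2.2.1 q (n i) hq
    have h2 : q * n i = (q - 1) * n i + n i := by
      rw [← Nat.succ_mul]
      congr 1
      omega
    omega
  have e1 : q * (N + (v - 1) * pp q (l + 1)) = q * (v * pp q (l + 2) + r) := by rw [hpf]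
  have e2 : q * (∑ i ∈ range v, (pp q (l + 2) - n i) + ∑ i ∈ range v, n i) =
      q * (v * pp q (l + 2)) := by rw [hdf]
  have e3 : q * (xx q (n v) + ∑ i ∈ Ico (v + 1) q, xx q (n i) + 1) ≤ q * r :=
    Nat.mul_le_mul_left _ hX
  have e4 : q * n v ≤ q * (xx q (n v) + pp q l) := Nat.mul_le_mul_left _ hnv
  have e5 : q * (∑ i ∈ range v, n i + (n v + ∑ i ∈ Ico (v + 1) q, n i)) = q * N := by
    rw [← hsplit]
    congr 1
  simp only [mul_add, mul_one] at e1 e2 e3 e4 e5 ⊢
  omega

theorem satIn_of : AlBasic → LAY → BeX1 → XxBasic → BeSat → PpBasic → BeCan → TotGe → U →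
    SatIn := by
  intro hAl hLAY hBX hXX hBS hPP hBC hTG hU q d l v r N n hP hR h0 hbad
  have hX := rest hAl hLAY hBX hXX hBS hBC hTG hU q d l v r N 1 n hP hR h0 hbad
  obtain ⟨hq, hd, hv1, hvd, hr1, hr2, hN⟩ := hP
  obtain ⟨hanti, hw, hsum⟩ := hR
  have hsplit : ∑ i ∈ range q, n i = ∑ i ∈ range v, n i + ∑ i ∈ Ico v q, n i := by
    rw [Finset.sum_range_add_sum_Ico _ (by omega)]
  have hpf := pp_facts hPP q l v r N hv1 hN
  have hdf := sum_defect q l v n hanti h0
  have hni : q * ∑ i ∈ Ico v q, n i ≤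
      q * ∑ i ∈ Ico v q, xx q (n i) + ∑ i ∈ Ico v q, n i := by
    rw [Finset.mul_sum, Finset.mul_sum, ← Finset.sum_add_distrib]
    apply Finset.sum_le_sum
    intro i _
    have h1 := hXX.2.2.2.2.1 q (n i) hq
    have h2 : q * n i = (q - 1) * n i + n i := by
      rw [← Nat.succ_mul]
      congr 1
      omega
    omega
  have e1 : q * (N + (v - 1) * pp q (l + 1)) = q * (v * pp q (l + 2) + r) := by rw [hpf]
  have e2 : q * (∑ i ∈ range v, (pp q (l + 2) - n i) + ∑ i ∈ range v, n i) =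
      q * (v * pp q (l + 2)) := by rw [hdf]
  have e3 : q * (∑ i ∈ Ico v q, xx q (n i) + 1) ≤ q * r :=
    Nat.mul_le_mul_left _ hX
  have e5 : q * (∑ i ∈ range v, n i + ∑ i ∈ Ico v q, n i + 1) = q * N := by
    rw [← hsplit, hsum]
  simp only [mul_add, mul_one] at e1 e2 e3 e5 ⊢
  omega

end Pool.Agent.W479.ER
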